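import Pool.Agent.H45.SQ.Targets1

/-!
# ENT: entries and operator norm of separated families
-/

namespace Pool.Agent.H42.SQ

open Finset Polynomial Pool.Agent.H45.SQ
open scoped BigOperators ComplexConjugate ComplexOrder

/-- ENT. -/
theorem ent (hOPT : T_OPT) : T_ENT := by
  intro G _ _ _ _ L C hS
  obtain ⟨Ω, _, c, a, b, ha, hb, hc, hL⟩ := hS
  have h1 : ∀ o u v, ‖L o u v‖ ≤ C := by
    intro o u v
    rw [hL]
    calc ‖∑ w, c w * a w o u * b w o v‖ ≤ ∑ w, ‖c w * a w o u * b w o v‖ := norm_sum_le _ _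
      _ ≤ ∑ w, ‖c w‖ := Finset.sum_le_sum fun w _ => by
          rw [norm_mul, norm_mul]
          have h2 := ha w o u
          have h3 := hb w o v
          calc ‖c w‖ * ‖a w o u‖ * ‖b w o v‖ ≤ ‖c w‖ * 1 * 1 := by gcongr
            _ = _ := by ring
      _ ≤ C := hc
  have h2 : ∀ s, EntLe (mat L s) C := by
    intro s y y'
    unfold mat
    rw [norm_mul, norm_inv, Complex.norm_natCast, div_eq_inv_mul]
    exact mul_le_mul_of_nonneg_left (h1 _ _ _) (by positivity)
  have h0 : 0 ≤ C := (norm_nonneg _).trans (h1 0 0 0)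
  exact ⟨h1, h2, fun s => (hOPT G (mat L s) (mat L s) C C).2.2.2.2.2.1 h0 (h2 s)⟩

end Pool.Agent.H42.SQ
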