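import Pool.Agent.H45.SQ.Targets1

/-!
# LIP: polynomials are Lipschitz in the operator norm
-/

namespace Pool.Agent.H42.SQ

open Finset Polynomial Pool.Agent.H45.SQ
open scoped BigOperators ComplexConjugate ComplexOrder

variable {G : Type} [AddCommGroup G] [Fintype G]

theorem opLe_smul {M : Matrix G G ℂ} {c : ℝ} (r : ℝ) (h : OpLe M c) :
    OpLe (r • M) (|r| * c) := by
  refine ⟨mul_nonneg (abs_nonneg _) h.1, fun g => ?_⟩
  have h1 : ∀ y, ‖(r • M).mulVec g y‖ ^ 2 = |r| ^ 2 * ‖M.mulVec g y‖ ^ 2 := by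
    intro y
    rw [Matrix.smul_mulVec, Pi.smul_apply, norm_smul, mul_pow, Real.norm_eq_abs]
  simp only [h1]
  rw [← Finset.mul_sum, mul_pow, mul_assoc]
  exact mul_le_mul_of_nonneg_left (h.2 g) (by positivity)

theorem opLe_zero : OpLe (0 : Matrix G G ℂ) 0 := by
  refine ⟨le_rfl, fun g => ?_⟩
  simp

theorem opLe_one [DecidableEq G] : OpLe (1 : Matrix G G ℂ) 1 := by
  refine ⟨zero_le_one, fun g => ?_⟩
  simp

/-- The Lipschitz constant of `x ^ n`. -/
def lipc (R : ℝ) : ℕ → ℝ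
  | 0 => 0
  | n + 1 => R ^ n + lipc R n * R

theorem lipc_nonneg {R : ℝ} (hR : 0 ≤ R) : ∀ n, 0 ≤ lipc R n
  | 0 => le_rfl
  | n + 1 => add_nonneg (pow_nonneg hR _) (mul_nonneg (lipc_nonneg hR n) hR)

theorem opLe_pow [DecidableEq G] [Module (ZMod 2) G] (hOPT : T_OPT) {A : Matrix G G ℂ} {R : ℝ}
    (hA : OpLe A R) : ∀ n : ℕ, OpLe (A ^ n) (R ^ n)
  | 0 => by simpa using opLe_one
  | n + 1 => by
    rw [pow_succ, pow_succ]
    exact (hOPT G _ _ _ _).2.2.1 (opLe_pow hOPT hA n) hA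

theorem opLe_pow_sub [DecidableEq G] [Module (ZMod 2) G] (hOPT : T_OPT) {A B : Matrix G G ℂ}
    {R ε : ℝ} (hA : OpLe A R) (hB : OpLe B R) (hAB : OpLe (A - B) ε) :
    ∀ n : ℕ, OpLe (A ^ n - B ^ n) (lipc R n * ε)
  | 0 => by simpa [lipc] using opLe_zero
  | n + 1 => by
    have h1 : A ^ (n + 1) - B ^ (n + 1) = A ^ n * (A - B) + (A ^ n - B ^ n) * B := by
      rw [pow_succ, pow_succ]; noncomm_ring
    have h2 : lipc R (n + 1) * ε = R ^ n * ε + (lipc R n * ε) * R := by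
      simp only [lipc]; ring
    rw [h1, h2]
    exact (hOPT G _ _ _ _).1 ((hOPT G _ _ _ _).2.2.1 (opLe_pow hOPT hA n) hAB)
      ((hOPT G _ _ _ _).2.2.1 (opLe_pow_sub hOPT hA hB hAB n) hB)

/-- LIP. -/
theorem lip (hOPT : T_OPT) : T_LIP := by
  intro q R
  induction q using Polynomial.induction_on' with
  | add p q hp hq =>
    obtain ⟨L₁, h₁, H₁⟩ := hp
    obtain ⟨L₂, h₂, H₂⟩ := hq
    refine ⟨L₁ + L₂, add_nonneg h₁ h₂, ?_⟩
    intro G _ _ _ _ A B ε hA hB hAB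
    have h3 : aeval A (p + q) - aeval B (p + q)
        = (aeval A p - aeval B p) + (aeval A q - aeval B q) := by
      rw [map_add, map_add]; abel
    rw [h3, add_mul]
    exact (hOPT G _ _ _ _).1 (H₁ G A B ε hA hB hAB) (H₂ G A B ε hA hB hAB)
  | monomial n a =>
    by_cases hR : 0 ≤ R
    · refine ⟨|a| * lipc R n, mul_nonneg (abs_nonneg _) (lipc_nonneg hR n), ?_⟩
      intro G _ _ _ _ A B ε hA hB hAB
      have h3 : aeval A (monomial n a) - aeval B (monomial n a) = a • (A ^ n - B ^ n) := by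
        rw [aeval_monomial, aeval_monomial, smul_sub, Algebra.smul_def, Algebra.smul_def]
      rw [h3, mul_assoc]
      exact opLe_smul a (opLe_pow_sub hOPT hA hB hAB n)
    · refine ⟨0, le_rfl, ?_⟩
      intro G _ _ _ _ A B ε hA hB hAB
      exact absurd hA.1 hR

end Pool.Agent.H42.SQ
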