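import Pool.Agent.H75.SQ.Basic

/-!
# Quantum statistical algorithms: the mean of the test of a guess (row MNA)
-/

set_option autoImplicit false

open Finset Matrix Pool.Agent.H75.SQ

namespace Pool.Agent.H42.SQ.MNA

/-- product of signs -/
theorem prod_sg {k : ℕ} (y : Fin k → Bool) :
    ∏ i, sg (y i) = (-1 : ℝ) ^ (univ.filter fun i => y i = true).card := by
  have h : ∀ i, sg (y i) = if y i = true then (-1 : ℝ) else 1 := fun i => rfl
  simp only [h]
  rw [Finset.prod_ite]
  simp

/-- the indicator of an odd number of true values -/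
noncomputable def od {k : ℕ} (y : Fin k → Bool) : ℝ := (1 - ∏ i, sg (y i)) / 2

theorem od_odd {k : ℕ} (y : Fin k → Bool) (h : Odd (univ.filter fun i => y i = true).card) :
    od y = 1 := by
  unfold od
  rw [prod_sg, h.neg_one_pow]
  norm_num

theorem od_even {k : ℕ} (y : Fin k → Bool) (h : ¬ Odd (univ.filter fun i => y i = true).card) :
    od y = 0 := by
  unfold od
  rw [prod_sg, (Nat.not_odd_iff_even.1 h).neg_one_pow]
  norm_num

theorem od_nonneg {k : ℕ} (y : Fin k → Bool) : 0 ≤ od y := by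
  by_cases h : Odd (univ.filter fun i => y i = true).card
  · rw [od_odd y h]; norm_num
  · rw [od_even y h]

theorem Qodd_eq {k : ℕ} (y : Fin k → Bool) : Qodd k y = 2 / 2 ^ k * od y := by
  unfold Qodd
  by_cases h : Odd (univ.filter fun i => y i = true).card
  · rw [if_pos h, od_odd y h, mul_one]
  · rw [if_neg h, od_even y h, mul_zero]

theorem sum_prod_cl {n k : ℕ} (f : Fin n × Bool → ℝ) :
    ∑ C : Cl n k, ∏ i, f (C i) = (∑ x, f x) ^ k := by
  have h := Finset.prod_univ_sum (fun _ : Fin k => (Finset.univ : Finset (Fin n × Bool)))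
    (fun _ x => f x)
  rw [Fintype.piFinset_univ] at h
  rw [← h]
  simp

theorem sum_P {n k : ℕ} (hk : 0 < k) (y : Fin n → Bool) :
    ∑ C : Cl n k, ∏ i, sg (pat y C i) = 0 := by
  have h := sum_prod_cl (n := n) (k := k) (fun x => sg (y x.1 == x.2))
  have h2 : ∀ x : Fin n, ∑ b : Bool, sg (y x == b) = 0 := by
    intro x
    cases y x <;> simp [sg]
  rw [Fintype.sum_prod_type] at h
  simp only [h2, Finset.sum_const_zero] at h
  rw [zero_pow (by omega)] at h
  exact h

theorem sum_PP {n k : ℕ} (hn : 0 < n) (y z : Fin n → Bool) :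
    ∑ C : Cl n k, (∏ i, sg (pat z C i)) * ∏ i, sg (pat y C i) = (2 * n * kap y z) ^ k := by
  have h := sum_prod_cl (n := n) (k := k) (fun x => sg (z x.1 == x.2) * sg (y x.1 == x.2))
  have h2 : ∀ x : Fin n, ∑ b : Bool, sg (z x == b) * sg (y x == b) =
      2 - 4 * (if y x ≠ z x then (1 : ℝ) else 0) := by
    intro x
    cases z x <;> cases y x <;> simp [sg] <;> norm_num
  rw [Fintype.sum_prod_type] at h
  simp only [h2, Finset.prod_mul_distrib] at h
  have h3 : ∑ x : Fin n, (2 - 4 * (if y x ≠ z x then (1 : ℝ) else 0)) = 2 * n * kap y z := by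
    unfold kap
    rw [Finset.sum_sub_distrib, ← Finset.mul_sum, Finset.sum_boole]
    have hn' : (n : ℝ) ≠ 0 := by positivity
    simp only [Finset.sum_const, Finset.card_univ, Fintype.card_fin, nsmul_eq_mul]
    field_simp
    ring
  rw [h3] at h
  exact h

theorem card_cl (n k : ℕ) : ∑ _C : Cl n k, (1 : ℝ) = (2 * n) ^ k := by
  have h := sum_prod_cl (n := n) (k := k) (fun _ => 1)
  simp only [Finset.prod_const_one] at h
  rw [h]
  congr 1
  simp
  ring

theorem mean_uc {n k : ℕ} (hn : 0 < n) (hk : 0 < k) (y : Fin n → Bool) :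
    ∑ C : Cl n k, uc C * od (pat y C) = 1 / 2 := by
  unfold uc od
  have hn' : (0 : ℝ) < (2 * n) ^ k := by positivity
  have e : ∀ C : Cl n k, 1 / (2 * (n : ℝ)) ^ k * ((1 - ∏ i, sg (pat y C i)) / 2) =
      1 / (2 * (2 * n) ^ k) * (1 - ∏ i, sg (pat y C i)) := by
    intro C
    field_simp
  rw [Finset.sum_congr rfl fun C _ => e C, ← Finset.mul_sum, Finset.sum_sub_distrib, card_cl,
    sum_P hk]
  field_simp
  ring

theorem mean_pc {n k : ℕ} (hn : 0 < n) (hk : 0 < k) (y z : Fin n → Bool) :
    ∑ C : Cl n k, pc (Qodd k) z C * od (pat y C) = (1 + kap y z ^ k) / 2 := by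
  have hn0 : (0 : ℝ) < n := by positivity
  have hn' : (0 : ℝ) < (2 * n) ^ k := by positivity
  have e : ∀ C : Cl n k, pc (Qodd k) z C * od (pat y C) =
      1 / (2 * (2 * n) ^ k) * (1 - ∏ i, sg (pat z C i) - ∏ i, sg (pat y C i) +
        (∏ i, sg (pat z C i)) * ∏ i, sg (pat y C i)) := by
    intro C
    unfold pc
    rw [Qodd_eq]
    unfold od
    rw [mul_pow]
    field_simp
    ring
  rw [Finset.sum_congr rfl fun C _ => e C, ← Finset.mul_sum, Finset.sum_add_distrib,
    Finset.sum_sub_distrib, Finset.sum_sub_distrib, card_cl, sum_P hk, sum_P hk, sum_PP hn]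
  rw [mul_pow (2 * (n : ℝ)) (kap y z) k]
  field_simp
  ring

theorem mu_prod {n k : ℕ} (w : Cl n k → ℝ) (q : ℕ) (o : Cl n k → ℝ) :
    mu w q (fun A => ∏ l, o (A l)) = (∑ C, w C * o C) ^ q := by
  unfold mu EF
  have h := Finset.prod_univ_sum (fun _ : Fin q => (Finset.univ : Finset (Cl n k)))
    (fun _ C => w C * o C)
  rw [Fintype.piFinset_univ] at h
  simp only [← Finset.prod_mul_distrib]
  rw [← h]
  simp

/-- the union bound -/
theorem ht_le {n k q : ℕ} (s : ℕ) (a : Fin n → Bool) (A : Fin q → Cl n k) :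
    ht s a A ≤
      ∑ y ∈ (Set.toFinite {y : Fin n → Bool | ∀ i : Fin n, (i : ℕ) < s → y i = a i}).toFinset,
        ∏ l, od (pat y (A l)) := by
  unfold ht
  by_cases h : ∃ y : Fin n → Bool, (∀ i : Fin n, (i : ℕ) < s → y i = a i) ∧
    ∀ l, Odd (univ.filter fun i => pat y (A l) i = true).card
  · rw [ind_true _ h]
    obtain ⟨y, hy, ho⟩ := h
    have h1 : ∏ l, od (pat y (A l)) = 1 := Finset.prod_eq_one fun l _ => od_odd _ (ho l)
    rw [← h1]
    refine Finset.single_le_sum (f := fun y => ∏ l, od (pat y (A l)))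
      (fun y _ => Finset.prod_nonneg fun l _ => od_nonneg _) ?_
    rw [Set.Finite.mem_toFinset]
    exact hy
  · rw [ind_false _ h]
    exact Finset.sum_nonneg fun y _ => Finset.prod_nonneg fun l _ => od_nonneg _

theorem mu_ht_le {n k q : ℕ} (w : Cl n k → ℝ) (hw : ∀ C, 0 ≤ w C) (s : ℕ) (a : Fin n → Bool) :
    mu w q (ht s a) ≤
      ∑ y ∈ (Set.toFinite {y : Fin n → Bool | ∀ i : Fin n, (i : ℕ) < s → y i = a i}).toFinset,
        (∑ C, w C * od (pat y C)) ^ q := by
  have h1 : mu w q (ht s a) ≤ EF w q (fun A =>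
      ∑ y ∈ (Set.toFinite {y : Fin n → Bool | ∀ i : Fin n, (i : ℕ) < s → y i = a i}).toFinset,
        ∏ l, od (pat y (A l))) := EF_mono w hw q _ _ fun A => ht_le s a A
  rw [EF_sum] at h1
  refine h1.trans (le_of_eq (Finset.sum_congr rfl fun y _ => ?_))
  exact mu_prod w q fun C => od (pat y C)

/-- the number of the assignments which agree with `a` on the first `s` variables -/
theorem card_agree (n s : ℕ) (a : Fin n → Bool) (hs : s ≤ n) :
    (Set.toFinite {y : Fin n → Bool | ∀ i : Fin n, (i : ℕ) < s → y i = a i}).toFinset.card ≤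
      2 ^ (n - s) := by
  classical
  have h : (Set.toFinite {y : Fin n → Bool | ∀ i : Fin n, (i : ℕ) < s → y i = a i}).toFinset ⊆
      Fintype.piFinset (fun i : Fin n => if (i : ℕ) < s then {a i} else Finset.univ) := by
    intro y hy
    rw [Set.Finite.mem_toFinset] at hy
    rw [Fintype.mem_piFinset]
    intro i
    by_cases hi : (i : ℕ) < s
    · rw [if_pos hi, Finset.mem_singleton]
      exact hy i hi
    · rw [if_neg hi]
      exact Finset.mem_univ _
  refine (Finset.card_le_card h).trans (le_of_eq ?_)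
  rw [Fintype.card_piFinset]
  have e : ∀ i : Fin n, (if (i : ℕ) < s then ({a i} : Finset Bool) else Finset.univ).card =
      if (i : ℕ) < s then 1 else 2 := by
    intro i
    by_cases hi : (i : ℕ) < s
    · rw [if_pos hi, if_pos hi, Finset.card_singleton]
    · rw [if_neg hi, if_neg hi]
      rfl
  rw [Finset.prod_congr rfl fun i _ => e i]
  rw [Fin.prod_univ_eq_prod_range (fun i => if i < s then 1 else 2) n]
  obtain ⟨d, rfl⟩ := Nat.exists_eq_add_of_le hs
  rw [Finset.prod_range_add]
  have e1 : ∏ i ∈ Finset.range s, (if i < s then 1 else 2) = 1 := by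
    refine Finset.prod_eq_one fun i hi => ?_
    rw [if_pos (Finset.mem_range.1 hi)]
  have e2 : ∏ i ∈ Finset.range d, (if s + i < s then 1 else 2) = 2 ^ d := by
    rw [Finset.prod_congr rfl fun i _ => if_neg (by omega : ¬ s + i < s)]
    simp
  rw [e1, e2, one_mul]
  congr 1
  omega

theorem pf_MNA (hWTS : T_WTS) : T_MNA := by
  intro n k q s a hn hk hs
  refine ⟨?_, ?_⟩
  · have hw : ∀ C : Cl n k, 0 ≤ uc C := by
      intro C
      unfold uc
      positivity
    refine (mu_ht_le uc hw s a).trans ?_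
    rw [Finset.sum_congr rfl fun y _ => by rw [mean_uc hn hk y]]
    rw [Finset.sum_const, nsmul_eq_mul]
    have h1 := card_agree n s a hs
    have h2 : (((Set.toFinite {y : Fin n → Bool | ∀ i : Fin n, (i : ℕ) < s →
        y i = a i}).toFinset.card : ℕ) : ℝ) ≤ 2 ^ (n - s) := by
      exact_mod_cast h1
    rw [one_div, inv_pow, ← div_eq_mul_inv]
    exact div_le_div_of_nonneg_right h2 (by positivity)
  · intro z
    have hw : ∀ C : Cl n k, 0 ≤ pc (Qodd k) z C := by
      intro C
      unfold pc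
      rw [Qodd_eq]
      have := od_nonneg (pat z C)
      positivity
    refine (mu_ht_le _ hw s a).trans (le_of_eq ?_)
    refine Finset.sum_congr rfl fun y _ => ?_
    rw [mean_pc hn hk y z]

end Pool.Agent.H42.SQ.MNA
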