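import Pool.Agent.H45.SQ.Targets1

/-!
# THM: monotonicity and Hilbert-Schmidt bound for `Theta`
-/

namespace Pool.Agent.H42.SQ

open Finset Polynomial Pool.Agent.H45.SQ Matrix
open scoped BigOperators ComplexConjugate ComplexOrder

variable {G : Type} [AddCommGroup G] [Fintype G]

/-- Trilinear sums of positive semidefinite matrices are nonnegative. -/
theorem th_nonneg (s t : G) {X B C : Matrix G G ℂ} (hX : X.PosSemidef) (hB : B.PosSemidef)
    (hC : C.PosSemidef) : 0 ≤ Th s t X B C := by
  have hB' : (B.submatrix (fun y => y + s) (fun y => y + s)).PosSemidef := hB.submatrix _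
  have hC' : (C.submatrix (fun y => y + s + t) (fun y => y + s + t)).PosSemidef := hC.submatrix _
  have h1 := ((hX.hadamard hB').hadamard hC').dotProduct_mulVec_nonneg (fun _ => (1 : ℂ))
  unfold Th
  refine mul_nonneg (Nat.cast_nonneg _) ?_
  convert h1 using 1
  simp only [dotProduct, mulVec, Matrix.hadamard_apply, Matrix.submatrix_apply, mul_one,
    Pi.star_apply, star_one, one_mul]

/-- THM. -/
theorem thm : T_THM := by
  intro G _ _ _ _ s t A A' B C
  constructor
  · intro hA hB hC
    have h1 := th_nonneg s t hA hB hC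
    have h2 : Th s t (A' - A) B C = Th s t A' B C - Th s t A B C := by
      unfold Th
      rw [← mul_sub, ← Finset.sum_sub_distrib]
      congr 1
      refine Finset.sum_congr rfl fun y _ => ?_
      rw [← Finset.sum_sub_distrib]
      refine Finset.sum_congr rfl fun y' _ => ?_
      rw [Matrix.sub_apply]; ring
    rw [h2] at h1
    have h3 := (Complex.le_def.1 h1).1
    rw [Complex.sub_re, Complex.zero_re] at h3
    linarith
  · intro b hb
    have hN : (0 : ℝ) < Fintype.card G := by exact_mod_cast Fintype.card_pos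
    have hb0 : 0 ≤ b := by
      have := (norm_nonneg _).trans (hb 0 0)
      rwa [le_div_iff₀ hN, zero_mul] at this
    unfold Th
    rw [norm_mul, Complex.norm_natCast]
    have h1 : ‖∑ y, ∑ y', A y y' * B (y + s) (y' + s) * C (y + s + t) (y' + s + t)‖
        ≤ ∑ y, ∑ y', (b / Fintype.card G) * (‖A y y'‖ * ‖C (y + s + t) (y' + s + t)‖) := by
      refine (norm_sum_le _ _).trans (Finset.sum_le_sum fun y _ => ?_)
      refine (norm_sum_le _ _).trans (Finset.sum_le_sum fun y' _ => ?_)
      rw [norm_mul, norm_mul]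
      calc ‖A y y'‖ * ‖B (y + s) (y' + s)‖ * ‖C (y + s + t) (y' + s + t)‖
          ≤ ‖A y y'‖ * (b / Fintype.card G) * ‖C (y + s + t) (y' + s + t)‖ := by
            gcongr; exact hb _ _
        _ = _ := by ring
    have h2 : ∑ y, ∑ y', (‖A y y'‖ * ‖C (y + s + t) (y' + s + t)‖)
        ≤ Real.sqrt (hsq A) * Real.sqrt (hsq C) := by
      have h3 : hsq C = ∑ y, ∑ y', ‖C (y + s + t) (y' + s + t)‖ ^ 2 := by
        unfold hsq
        rw [← Equiv.sum_comp ((Equiv.addRight s).trans (Equiv.addRight t))
          (fun y => ∑ y', ‖C y y'‖ ^ 2)]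
        refine Finset.sum_congr rfl fun y _ => ?_
        rw [← Equiv.sum_comp ((Equiv.addRight s).trans (Equiv.addRight t))]
        rfl
      rw [h3]
      unfold hsq
      rw [← Finset.sum_product', ← Finset.sum_product', ← Finset.sum_product']
      exact Real.sum_mul_le_sqrt_mul_sqrt _ _ _
    calc (Fintype.card G : ℝ) * ‖∑ y, ∑ y', A y y' * B (y + s) (y' + s)
          * C (y + s + t) (y' + s + t)‖
        ≤ (Fintype.card G : ℝ) * ∑ y, ∑ y', (b / Fintype.card G)
          * (‖A y y'‖ * ‖C (y + s + t) (y' + s + t)‖) := by gcongr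
      _ = b * ∑ y, ∑ y', (‖A y y'‖ * ‖C (y + s + t) (y' + s + t)‖) := by
          simp only [← Finset.mul_sum]
          field_simp
      _ ≤ b * (Real.sqrt (hsq A) * Real.sqrt (hsq C)) := by gcongr
      _ = _ := by ring

end Pool.Agent.H42.SQ
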